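import Pool.Agent.Helper66.PD.Stmts

/-!
# Row UPP: the upper bound
-/

set_option autoImplicit false

namespace Pool.Agent.Helper66.PD

theorem upp_cls (h7 : ST_SEQ) (P : Type) [PartialOrder P] (S : P → P → Prop)
    (hS : ∀ (n : ℕ) (t : ℕ → P × P), 1 ≤ n → (∀ k, t (k + n) = t k) →
      ¬ ∀ k, Alt P S (t k) (t (k + 1))) :
    ∀ s, ¬ Relation.TransGen (Alt P S) s s := by
  intro s hs
  obtain ⟨n, t, hn, ht, hp⟩ := h7 (P × P) (Alt P S) s hs
  exact hS n t hn hp ht

theorem upp_fin (P : Type) [PartialOrder P] (K : Type) [Fintype K] (d : ℕ)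
    (hd : Fintype.card K = d) (g : K → P → ℕ) (χ : P → P → K)
    (hg : ∀ c x y, x ≤ y → g c x ≤ g c y)
    (hr : ∀ c x y, ¬ x ≤ y → χ x y = c → g c y < g c x) : DimLE P d := by
  refine ⟨fun x i => g ((Fintype.equivFinOfCardEq hd).symm i) x, fun x y => ⟨?_, ?_⟩⟩
  · intro hxy i
    exact hg _ x y hxy
  · intro hf
    by_contra hxy
    have h1 := hf (Fintype.equivFinOfCardEq hd (χ x y))
    have h2 := hr (χ x y) x y hxy rfl
    simp only [Equiv.symm_apply_apply] at h1
    exact absurd h1 (not_le.2 h2)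

theorem upp_empty (P : Type) [PartialOrder P] (h : HeightLE P 0) (d : ℕ) : DimLE P d := by
  have he : ∀ x : P, False := by
    intro x
    have h1 := h {x} (by
      intro a ha b hb hab
      have ha' : a = x := by simpa using ha
      have hb' : b = x := by simpa using hb
      exact absurd (ha'.trans hb'.symm) hab)
    simp at h1
  exact ⟨fun x => (he x).elim, fun x => (he x).elim⟩

theorem st_UPP (h1 : ST_HGT) (h2 : ST_ITV) (h3 : ST_HIE) (h4 : ST_LST) (h5 : ST_INJ)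
    (h6 : ST_CRD) (h7 : ST_SEQ) (h8 : ST_KEY) (h9 : ST_EXT) : ST_UPP := by
  intro P _ _ w h hh hw
  rcases Nat.eq_zero_or_pos h with h0 | h0
  · subst h0
    exact upp_empty P hh _
  · obtain ⟨H, hH1, hH2⟩ := h1 P h hh
    obtain ⟨m, l, r, hlr, hrm, hadj, hcard⟩ := h2 P w hw
    obtain ⟨A, E, C, hier⟩ := h3 P m l r
    have hlst := h4 P w m l r A E C hcard hier
    obtain ⟨e, he⟩ := h5 P w l r hcard
    have hrep : Rep P w h m l r H := ⟨hlr, hrm, hadj, hcard, hH1, hH2⟩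
    obtain ⟨χ, hχ⟩ := h8 P w h m l r H A E C e h0 hrep hier hlst he
    have hf : ∀ c : Col w h, ∃ f : P → ℕ, (∀ x y, x ≤ y → f x ≤ f y) ∧
        ∀ x y, (¬ x ≤ y ∧ χ x y = c) → f y < f x := by
      intro c
      exact h9 P (fun x y => ¬ x ≤ y ∧ χ x y = c) (fun x y hxy => hxy.1)
        (upp_cls h7 P _ (hχ c))
    choose g hg hr using hf
    exact upp_fin P (Col w h) _ (h6 w h) g χ hg (fun c x y hxy hc => hr c x y ⟨hxy, hc⟩)

end Pool.Agent.Helper66.PD
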